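import Mathlib

/-!
# Circle packings for the hexagonal complex: definitions
-/

set_option autoImplicit false

namespace Pool.Agent.Q139.Doyle

open Metric

/-- The six directions of the hexagonal lattice in counterclockwise order. The vertex `(n, m)`
stands for the lattice point `n + m ω`, `ω = e^{iπ/3}`; its neighbours are `(n, m) + dir i`, and
`(n, m)`, `(n, m) + dir i`, `(n, m) + dir (i + 1)` are the vertices of a face. -/
def dir : Fin 6 → ℤ × ℤ := ![(1, 0), (0, 1), (-1, 1), (-1, 0), (0, -1), (1, -1)]

/-- The angle at the vertex of radius `r` in the Euclidean triangle with side lengths `r + a`,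
`r + b` and `a + b`, opposite the side `a + b` (law of cosines). -/
noncomputable def ang (r a b : ℝ) : ℝ :=
  Real.arccos (((r + a) ^ 2 + (r + b) ^ 2 - (a + b) ^ 2) / (2 * (r + a) * (r + b)))

/-- The angle sum of the label `R` at the vertex `v`. -/
noncomputable def angleSum (R : ℤ × ℤ → ℝ) (v : ℤ × ℤ) : ℝ :=
  ∑ i : Fin 6, ang (R v) (R (v + dir i)) (R (v + dir (i + 1)))

/-- A packing label: positive, with all angle sums `2π`. -/
def IsPackingLabel (R : ℤ × ℤ → ℝ) : Prop :=
  (∀ v, 0 < R v) ∧ ∀ v, angleSum R v = 2 * Real.pi

/-- A circle packing for the hexagonal complex: the circle of the vertex `v` has centre `Z v` and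
radius `R v`. The label `R` is a packing label, the circles of adjacent vertices are externally
tangent, and every face is positively oriented. -/
structure IsPacking (R : ℤ × ℤ → ℝ) (Z : ℤ × ℤ → ℂ) : Prop where
  label : IsPackingLabel R
  tangent : ∀ v i, dist (Z v) (Z (v + dir i)) = R v + R (v + dir i)
  oriented : ∀ v i,
    0 < ((Z (v + dir (i + 1)) - Z v) * (starRingEnd ℂ) (Z (v + dir i) - Z v)).im

/-- The packing is locally univalent: for every vertex the seven circles of its flower have
pairwise disjoint interiors. -/
def LocallyUnivalent (R : ℤ × ℤ → ℝ) (Z : ℤ × ℤ → ℂ) : Prop :=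
  ∀ v : ℤ × ℤ, ∀ a ∈ insert 0 (Set.range dir), ∀ b ∈ insert 0 (Set.range dir), a ≠ b →
    Disjoint (ball (Z (v + a)) (R (v + a))) (ball (Z (v + b)) (R (v + b)))

theorem dir_add (i : Fin 6) : dir i + dir (i + 2) = dir (i + 1) := by
  revert i; decide

theorem dir_add_three (i : Fin 6) : dir i + dir (i + 3) = 0 := by
  revert i; decide

theorem dir_add_four (i : Fin 6) : dir i + dir (i + 4) = dir (i - 1) := by
  revert i; decide

theorem dir_ne {i j : Fin 6} (h : i ≠ j) : dir i ≠ dir j := by
  revert i j; decide

end Pool.Agent.Q139.Doyle
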