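import Pool.Agent.Q139.Doyle.Defs

/-!
# Variation of angles with the logarithms of the radii
-/

set_option autoImplicit false

namespace Pool.Agent.Q139.Doyle

open MeasureTheory intervalIntegral

/-- the inradius of the triangle of centres -/
noncomputable def inr (x y z : ℝ) : ℝ := Real.sqrt (x * y * z / (x + y + z))

theorem inr_pos {x y z : ℝ} (hx : 0 < x) (hy : 0 < y) (hz : 0 < z) : 0 < inr x y z :=
  Real.sqrt_pos.2 (by positivity)

theorem inr_sq {x y z : ℝ} (hx : 0 < x) (hy : 0 < y) (hz : 0 < z) :
    inr x y z ^ 2 * (x + y + z) = x * y * z := by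
  rw [inr, Real.sq_sqrt (by positivity)]
  field_simp

theorem inr_comm (x y z : ℝ) : inr x y z = inr y x z := by
  rw [inr, inr, mul_comm x y, add_comm x y]

theorem inr_comm' (x y z : ℝ) : inr x y z = inr x z y := by
  rw [inr, inr, show x * y * z = x * z * y by ring, show x + y + z = x + z + y by ring]

/-- the cosine of the angle -/
theorem cosarg_eq {x y z : ℝ} (hx : 0 < x) (hy : 0 < y) (hz : 0 < z) :
    ((x + y) ^ 2 + (x + z) ^ 2 - (y + z) ^ 2) / (2 * (x + y) * (x + z)) =
      1 - 2 * (y * z / ((x + y) * (x + z))) := by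
  have h1 : x + y ≠ 0 := by positivity
  have h2 : x + z ≠ 0 := by positivity
  field_simp
  ring

theorem frac_pos {x y z : ℝ} (hx : 0 < x) (hy : 0 < y) (hz : 0 < z) :
    0 < y * z / ((x + y) * (x + z)) := by positivity

theorem frac_lt {x y z : ℝ} (hx : 0 < x) (hy : 0 < y) (hz : 0 < z) :
    y * z / ((x + y) * (x + z)) < 1 := by
  rw [div_lt_one (by positivity)]
  nlinarith [mul_pos hx hy, mul_pos hx hz, mul_pos hx hx]

theorem sqrt_one_sub {x y z : ℝ} (hx : 0 < x) (hy : 0 < y) (hz : 0 < z) :
    Real.sqrt (1 - (1 - 2 * (y * z / ((x + y) * (x + z)))) ^ 2) =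
      2 * inr x y z * (x + y + z) / ((x + y) * (x + z)) := by
  have h0 := inr_pos hx hy hz
  have h1 := inr_sq hx hy hz
  rw [show 1 - (1 - 2 * (y * z / ((x + y) * (x + z)))) ^ 2 =
    (2 * inr x y z * (x + y + z) / ((x + y) * (x + z))) ^ 2 from ?_]
  · exact Real.sqrt_sq (by positivity)
  · have h3 : x + y ≠ 0 := by positivity
    have h4 : x + z ≠ 0 := by positivity
    field_simp
    linear_combination (-4) * (x + y + z) * h1

/-- the derivative of the angle along a line in the space of logarithmic radii -/
theorem hasDerivAt_ang (a b c p q s t : ℝ) :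
    HasDerivAt (fun t => ang (Real.exp (a + t * p)) (Real.exp (b + t * q)) (Real.exp (c + t * s)))
      (inr (Real.exp (a + t * p)) (Real.exp (b + t * q)) (Real.exp (c + t * s)) /
          (Real.exp (a + t * p) + Real.exp (b + t * q)) * (q - p) +
        inr (Real.exp (a + t * p)) (Real.exp (b + t * q)) (Real.exp (c + t * s)) /
          (Real.exp (a + t * p) + Real.exp (c + t * s)) * (s - p)) t := by
  have hexp : ∀ a p : ℝ, HasDerivAt (fun t => Real.exp (a + t * p))
      (Real.exp (a + t * p) * p) t := by
    intro a p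
    have h1 : HasDerivAt (fun t : ℝ => a + t * p) p t := by
      have := ((hasDerivAt_id t).mul_const p).const_add a
      simpa using this
    exact h1.exp
  set x := Real.exp (a + t * p) with hxd
  set y := Real.exp (b + t * q) with hyd
  set z := Real.exp (c + t * s) with hzd
  have hx : 0 < x := Real.exp_pos _
  have hy : 0 < y := Real.exp_pos _
  have hz : 0 < z := Real.exp_pos _
  have hX := hexp a p
  have hY := hexp b q
  have hZ := hexp c s
  rw [← hxd] at hX
  rw [← hyd] at hY
  rw [← hzd] at hZ
  have hQ : HasDerivAt (fun t => 1 - 2 * (Real.exp (b + t * q) * Real.exp (c + t * s) /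
      ((Real.exp (a + t * p) + Real.exp (b + t * q)) *
        (Real.exp (a + t * p) + Real.exp (c + t * s)))))
      (-(2 * (((y * q * z + y * (z * s)) * ((x + y) * (x + z)) -
        y * z * ((x * p + y * q) * (x + z) + (x + y) * (x * p + z * s))) /
          ((x + y) * (x + z)) ^ 2))) t := by
    have h1 := hY.mul hZ
    have h2 := (hX.add hY).mul (hX.add hZ)
    have h3 := (h1.div h2 (by
      simp only [Pi.mul_apply, Pi.add_apply]
      positivity)).const_mul 2 |>.const_sub 1
    exact h3
  have hne1 : 1 - 2 * (y * z / ((x + y) * (x + z))) ≠ -1 := by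
    have := frac_lt hx hy hz
    intro h
    linarith
  have hne2 : 1 - 2 * (y * z / ((x + y) * (x + z))) ≠ 1 := by
    have := frac_pos hx hy hz
    intro h
    linarith
  have hA := (Real.hasDerivAt_arccos hne1 hne2).comp t hQ
  have hfun : (fun t => ang (Real.exp (a + t * p)) (Real.exp (b + t * q))
      (Real.exp (c + t * s))) = Real.arccos ∘ (fun t => 1 - 2 * (Real.exp (b + t * q) *
        Real.exp (c + t * s) / ((Real.exp (a + t * p) + Real.exp (b + t * q)) *
          (Real.exp (a + t * p) + Real.exp (c + t * s))))) := by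
    funext t'
    rw [ang, cosarg_eq (Real.exp_pos _) (Real.exp_pos _) (Real.exp_pos _)]
    rfl
  rw [hfun]
  refine hA.congr_deriv ?_
  rw [sqrt_one_sub hx hy hz]
  have h0 := inr_pos hx hy hz
  have h1 := inr_sq hx hy hz
  have h3 : x + y ≠ 0 := by positivity
  have h4 : x + z ≠ 0 := by positivity
  have h5 : x + y + z ≠ 0 := by positivity
  have h6 : inr x y z ≠ 0 := h0.ne'
  clear hA hfun hQ hX hY hZ hexp hne1 hne2
  clear_value x y z
  field_simp
  linear_combination (-((q - p) * (x + z) + (s - p) * (x + y))) * h1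

/-- the conductance of the edge `xy` in the triangle `xyz` (logarithmic radii `a`, `b`, `c` and
increments `p`, `q`, `s`) -/
noncomputable def cnd (a b c p q s : ℝ) : ℝ :=
  ∫ t in (0 : ℝ)..1, inr (Real.exp (a + t * p)) (Real.exp (b + t * q)) (Real.exp (c + t * s)) /
    (Real.exp (a + t * p) + Real.exp (b + t * q))

theorem cont_cnd (a b c p q s : ℝ) :
    Continuous fun t : ℝ => inr (Real.exp (a + t * p)) (Real.exp (b + t * q))
      (Real.exp (c + t * s)) / (Real.exp (a + t * p) + Real.exp (b + t * q)) := by
  unfold inr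
  refine Continuous.div ?_ (by fun_prop) (fun t => by positivity)
  refine Real.continuous_sqrt.comp ?_
  exact Continuous.div (by fun_prop) (by fun_prop) (fun t => by positivity)

theorem cnd_comm (a b c p q s : ℝ) : cnd a b c p q s = cnd b a c q p s := by
  unfold cnd
  refine intervalIntegral.integral_congr fun t _ => ?_
  rw [inr_comm, add_comm (Real.exp (a + t * p))]

theorem cnd_pos (a b c p q s : ℝ) : 0 < cnd a b c p q s := by
  refine intervalIntegral_pos_of_pos ((cont_cnd a b c p q s).intervalIntegrable _ _)
    (fun t => ?_) one_pos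
  exact div_pos (inr_pos (Real.exp_pos _) (Real.exp_pos _) (Real.exp_pos _)) (by positivity)

theorem inr_le {x y z : ℝ} (hx : 0 < x) (hy : 0 < y) (hz : 0 < z) :
    inr x y z / (x + y) ≤ 1 := by
  rw [div_le_one (by positivity)]
  rw [inr, Real.sqrt_le_left (by positivity), div_le_iff₀ (by positivity)]
  nlinarith [mul_pos hx hy, mul_pos (mul_pos hx hy) hz, mul_pos hx hz, mul_pos hy hz,
    mul_pos (mul_pos hx hx) hx, mul_pos (mul_pos hy hy) hy, mul_pos (mul_pos hx hx) hy,
    mul_pos (mul_pos hx hx) hz, mul_pos (mul_pos hy hy) hz, mul_pos (mul_pos hx hy) hy]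

theorem cnd_le (a b c p q s : ℝ) : cnd a b c p q s ≤ 1 := by
  have h1 : cnd a b c p q s ≤ ∫ _ in (0 : ℝ)..1, (1 : ℝ) := by
    refine intervalIntegral.integral_mono_on zero_le_one ((cont_cnd a b c p q s).intervalIntegrable _ _)
      (by simp) (fun t _ => ?_)
    exact inr_le (Real.exp_pos _) (Real.exp_pos _) (Real.exp_pos _)
  simpa using h1

/-- the difference of the angles of two triangles -/
theorem ang_sub (a b c p q s : ℝ) :
    ang (Real.exp (a + p)) (Real.exp (b + q)) (Real.exp (c + s)) -
      ang (Real.exp a) (Real.exp b) (Real.exp c) =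
      cnd a b c p q s * (q - p) + cnd a c b p s q * (s - p) := by
  have h1 : Continuous fun t : ℝ =>
      inr (Real.exp (a + t * p)) (Real.exp (b + t * q)) (Real.exp (c + t * s)) /
          (Real.exp (a + t * p) + Real.exp (b + t * q)) * (q - p) +
        inr (Real.exp (a + t * p)) (Real.exp (b + t * q)) (Real.exp (c + t * s)) /
          (Real.exp (a + t * p) + Real.exp (c + t * s)) * (s - p) := by
    have e : ∀ t : ℝ, inr (Real.exp (a + t * p)) (Real.exp (b + t * q)) (Real.exp (c + t * s)) =
      inr (Real.exp (a + t * p)) (Real.exp (c + t * s)) (Real.exp (b + t * q)) :=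
      fun t => inr_comm' _ _ _
    refine ((cont_cnd a b c p q s).mul_const _).add ?_
    simp only [e]
    exact (cont_cnd a c b p s q).mul_const _
  have h2 := integral_eq_sub_of_hasDerivAt (a := 0) (b := 1)
    (fun t _ => hasDerivAt_ang a b c p q s t) (h1.intervalIntegrable _ _)
  simp only [one_mul, zero_mul, add_zero] at h2
  rw [← h2]
  rw [intervalIntegral.integral_add, intervalIntegral.integral_mul_const,
    intervalIntegral.integral_mul_const]
  · congr 2
    unfold cnd
    refine intervalIntegral.integral_congr fun t _ => ?_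
    rw [inr_comm']
  · exact ((cont_cnd a b c p q s).mul_const _).intervalIntegrable _ _
  · have := ((cont_cnd a c b p s q).mul_const (s - p))
    refine Continuous.intervalIntegrable ?_ _ _
    convert this using 2
    rw [inr_comm']

end Pool.Agent.Q139.Doyle
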