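import Pool.Agent.Q139.Doyle.Defs

/-!
# Bounded harmonic functions on the hexagonal lattice with bounded conductances are constant
-/

set_option autoImplicit false

namespace Pool.Agent.Q139.Doyle

open Finset Filter Topology

/-- the sup norm -/
def nrm (v : ℤ × ℤ) : ℕ := max v.1.natAbs v.2.natAbs

theorem nrm_dir_le (v : ℤ × ℤ) (i : Fin 6) : nrm (v + dir i) ≤ nrm v + 1 := by
  fin_cases i <;> simp [nrm, dir] <;> omega

theorem nrm_le_dir (v : ℤ × ℤ) (i : Fin 6) : nrm v ≤ nrm (v + dir i) + 1 := by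
  fin_cases i <;> simp [nrm, dir] <;> omega

/-- harmonic numbers -/
noncomputable def hrm (k : ℕ) : ℝ := ∑ j ∈ range k, 1 / ((j : ℝ) + 1)

theorem hrm_succ (k : ℕ) : hrm (k + 1) = hrm k + 1 / ((k : ℝ) + 1) := by
  rw [hrm, sum_range_succ, ← hrm]

theorem hrm_mono : Monotone hrm := by
  refine monotone_nat_of_le_succ fun k => ?_
  rw [hrm_succ]
  have : (0 : ℝ) ≤ 1 / ((k : ℝ) + 1) := by positivity
  linarith

theorem hrm_tendsto : Tendsto hrm atTop atTop := Real.tendsto_sum_range_one_div_nat_succ_atTop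

theorem hrm_zero : hrm 0 = 0 := by simp [hrm]

theorem hrm_pos {k : ℕ} (h : 1 ≤ k) : 1 ≤ hrm k := by
  have h1 := hrm_mono h
  have h2 : hrm 1 = 1 := by simp [hrm]
  rw [h2] at h1
  exact h1

/-- the cutoff function -/
noncomputable def cut (N : ℕ) (v : ℤ × ℤ) : ℝ := max 0 (1 - hrm (nrm v) / hrm N)

theorem cut_diff {N : ℕ} (hN : 1 ≤ N) (v : ℤ × ℤ) (i : Fin 6) :
    |cut N (v + dir i) - cut N v| ≤ (if nrm v = 0 then 1 else 1 / (nrm v : ℝ)) / hrm N := by
  have hp : 0 < hrm N := lt_of_lt_of_le one_pos (hrm_pos hN)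
  have h1 : |cut N (v + dir i) - cut N v| ≤ |hrm (nrm (v + dir i)) - hrm (nrm v)| / hrm N := by
    have h2 := abs_max_sub_max_le_abs (1 - hrm (nrm (v + dir i)) / hrm N)
      (1 - hrm (nrm v) / hrm N) 0
    have h3 : |cut N (v + dir i) - cut N v| ≤
        |1 - hrm (nrm (v + dir i)) / hrm N - (1 - hrm (nrm v) / hrm N)| := by
      rw [cut, cut, max_comm 0, max_comm 0]
      exact h2
    refine h3.trans (le_of_eq ?_)
    rw [show 1 - hrm (nrm (v + dir i)) / hrm N - (1 - hrm (nrm v) / hrm N) =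
      -((hrm (nrm (v + dir i)) - hrm (nrm v)) / hrm N) by ring, abs_neg, abs_div,
      abs_of_pos hp]
  refine h1.trans ?_
  rw [div_le_div_iff_of_pos_right hp]
  have ha := nrm_dir_le v i
  have hb := nrm_le_dir v i
  rcases lt_trichotomy (nrm (v + dir i)) (nrm v) with h | h | h
  · have h4 : nrm v = nrm (v + dir i) + 1 := by omega
    rw [h4, hrm_succ, if_neg (by omega)]
    rw [show hrm (nrm (v + dir i)) - (hrm (nrm (v + dir i)) + 1 / ((nrm (v + dir i) : ℝ) + 1)) =
      -(1 / ((nrm (v + dir i) : ℝ) + 1)) by ring, abs_neg, abs_of_nonneg (by positivity)]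
    push_cast
    exact le_rfl
  · rw [h, sub_self, abs_zero]
    split_ifs <;> positivity
  · have h4 : nrm (v + dir i) = nrm v + 1 := by omega
    rw [h4, hrm_succ, add_sub_cancel_left, abs_of_nonneg (by positivity)]
    split_ifs with h5
    · rw [h5]; norm_num
    · have h6 : (0 : ℝ) < nrm v := by
        have : 0 < nrm v := Nat.pos_of_ne_zero h5
        exact_mod_cast this
      apply one_div_le_one_div_of_le h6
      linarith

theorem cut_eq_zero {N : ℕ} (hN : 1 ≤ N) {v : ℤ × ℤ} (h : N ≤ nrm v) : cut N v = 0 := by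
  have hp : 0 < hrm N := lt_of_lt_of_le one_pos (hrm_pos hN)
  rw [cut, max_eq_left]
  have : hrm N ≤ hrm (nrm v) := hrm_mono h
  have h2 : 1 ≤ hrm (nrm v) / hrm N := by rwa [le_div_iff₀ hp, one_mul]
  linarith

theorem cut_tendsto (v : ℤ × ℤ) : Tendsto (fun N => cut N v) atTop (𝓝 1) := by
  have h1 : Tendsto (fun N => hrm (nrm v) / hrm N) atTop (𝓝 0) :=
    Tendsto.const_div_atTop hrm_tendsto _
  have h2 : Tendsto (fun N => max 0 (1 - hrm (nrm v) / hrm N)) atTop (𝓝 (max 0 (1 - 0))) :=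
    tendsto_const_nhds.max (tendsto_const_nhds.sub h1)
  rw [sub_zero, max_eq_right zero_le_one] at h2
  exact h2

/-- the finite set which contains everything -/
noncomputable def bx (N : ℕ) : Finset (ℤ × ℤ) := (range (N + 2)).biUnion fun k => box k

theorem mem_bx {N : ℕ} {v : ℤ × ℤ} : v ∈ bx N ↔ nrm v ≤ N + 1 := by
  rw [bx, mem_biUnion]
  constructor
  · rintro ⟨k, hk, hv⟩
    rw [Int.mem_box] at hv
    rw [mem_range] at hk
    have : nrm v = k := hv
    omega
  · intro h
    refine ⟨nrm v, mem_range.2 (by omega), ?_⟩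
    rw [Int.mem_box]
    rfl

/-- the Dirichlet energy of the cutoff function -/
noncomputable def energy (N : ℕ) : ℝ :=
  ∑ v ∈ bx N, ∑ i : Fin 6, (cut N (v + dir i) - cut N v) ^ 2

theorem energy_le {N : ℕ} (hN : 1 ≤ N) : energy N ≤ 6 * (9 + 8 * hrm N) / hrm N ^ 2 := by
  have hp : 0 < hrm N := lt_of_lt_of_le one_pos (hrm_pos hN)
  have h1 : energy N ≤ ∑ v ∈ bx N, 6 * ((if nrm v = 0 then 1 else 1 / (nrm v : ℝ)) / hrm N) ^ 2 := by
    refine sum_le_sum fun v _ => ?_
    have : ∀ i : Fin 6, (cut N (v + dir i) - cut N v) ^ 2 ≤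
        ((if nrm v = 0 then 1 else 1 / (nrm v : ℝ)) / hrm N) ^ 2 := fun i => by
      have h2 := cut_diff hN v i
      rw [← sq_abs]
      exact pow_le_pow_left₀ (abs_nonneg _) h2 2
    refine (sum_le_sum fun i _ => this i).trans (le_of_eq ?_)
    rw [sum_const, card_univ, Fintype.card_fin, nsmul_eq_mul]
    norm_num
  refine h1.trans ?_
  have h2 : ∑ v ∈ bx N, 6 * ((if nrm v = 0 then 1 else 1 / (nrm v : ℝ)) / hrm N) ^ 2 ≤
      ∑ k ∈ range (N + 2), ∑ v ∈ (box k : Finset (ℤ × ℤ)),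
        6 * ((if nrm v = 0 then 1 else 1 / (nrm v : ℝ)) / hrm N) ^ 2 := by
    rw [bx]
    rw [sum_biUnion]
    intro a _ b _ hab
    rw [Function.onFun, Finset.disjoint_left]
    intro x hx hx'
    rw [Int.mem_box] at hx hx'
    exact hab (hx.symm.trans hx')
  refine h2.trans ?_
  have h3 : ∀ k : ℕ, ∑ v ∈ (box k : Finset (ℤ × ℤ)),
      6 * ((if nrm v = 0 then 1 else 1 / (nrm v : ℝ)) / hrm N) ^ 2 =
      (if k = 0 then 1 else 8 / (k : ℝ)) * (6 / hrm N ^ 2) := by
    intro k
    have h4 : ∀ v ∈ (box k : Finset (ℤ × ℤ)),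
        6 * ((if nrm v = 0 then 1 else 1 / (nrm v : ℝ)) / hrm N) ^ 2 =
        6 * ((if k = 0 then 1 else 1 / (k : ℝ)) / hrm N) ^ 2 := by
      intro v hv
      rw [Int.mem_box] at hv
      have : nrm v = k := hv
      rw [this]
    rw [sum_congr rfl h4, sum_const, nsmul_eq_mul]
    by_cases hk : k = 0
    · subst hk
      simp
      field_simp
    · rw [Int.card_box hk, if_neg hk, if_neg hk]
      have : (k : ℝ) ≠ 0 := by exact_mod_cast hk
      push_cast
      field_simp
  rw [sum_congr rfl fun k _ => h3 k, ← sum_mul]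
  have h5 : ∑ k ∈ range (N + 2), (if k = 0 then 1 else 8 / (k : ℝ)) ≤ 9 + 8 * hrm N := by
    rw [sum_range_succ']
    simp only [Nat.succ_ne_zero, if_false, if_true]
    have h6 : ∑ k ∈ range (N + 1), 8 / ((k + 1 : ℕ) : ℝ) = 8 * hrm (N + 1) := by
      rw [hrm, mul_sum]
      refine sum_congr rfl fun k _ => ?_
      push_cast
      ring
    rw [h6, hrm_succ]
    have h7 : 1 / ((N : ℝ) + 1) ≤ 1 := by
      rw [div_le_one (by positivity)]
      have : (0 : ℝ) ≤ N := Nat.cast_nonneg N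
      linarith
    linarith
  calc _ ≤ (9 + 8 * hrm N) * (6 / hrm N ^ 2) :=
        mul_le_mul_of_nonneg_right h5 (by positivity)
    _ = _ := by ring

theorem energy_nonneg (N : ℕ) : 0 ≤ energy N :=
  sum_nonneg fun _ _ => sum_nonneg fun _ _ => sq_nonneg _

theorem energy_tendsto : Tendsto energy atTop (𝓝 0) := by
  have h1 : Tendsto (fun N : ℕ => 102 / hrm N) atTop (𝓝 0) :=
    Tendsto.const_div_atTop hrm_tendsto _
  refine squeeze_zero' (Eventually.of_forall energy_nonneg) ?_ h1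
  filter_upwards [eventually_ge_atTop 1] with N hN
  refine (energy_le hN).trans ?_
  have hp := hrm_pos hN
  have hp' : 0 < hrm N := lt_of_lt_of_le one_pos hp
  rw [div_le_div_iff₀ (by positivity) hp']
  nlinarith [mul_nonneg (sub_nonneg.2 hp) hp'.le]

/-- **Liouville theorem.** -/
theorem liouville {c : ℤ × ℤ → Fin 6 → ℝ} {K M : ℝ} {w : ℤ × ℤ → ℝ}
    (hc : ∀ v i, 0 < c v i) (hK : ∀ v i, c v i ≤ K)
    (hsym : ∀ v i, c (v + dir i) (i + 3) = c v i) (hM : ∀ v, |w v| ≤ M)
    (hh : ∀ v, ∑ i, c v i * (w (v + dir i) - w v) = 0) (v₀ : ℤ × ℤ) (i₀ : Fin 6) :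
    w (v₀ + dir i₀) = w v₀ := by
  have hM0 : 0 ≤ M := (abs_nonneg _).trans (hM 0)
  have hK0 : 0 ≤ K := (hc 0 0).le.trans (hK 0 0)
  -- the energy inequality
  have key : ∀ N : ℕ, 1 ≤ N → nrm v₀ ≤ N →
      c v₀ i₀ * (cut N (v₀ + dir i₀) * w (v₀ + dir i₀) - cut N v₀ * w v₀) ^ 2 ≤
        K * M ^ 2 * energy N := by
    intro N hN hv₀
    -- sums over all vertices
    have hz : ∀ v, v ∉ bx N → cut N v = 0 ∧ ∀ i, cut N (v + dir i) = 0 := by
      intro v hv
      rw [mem_bx, not_le] at hv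
      refine ⟨cut_eq_zero hN (by omega), fun i => cut_eq_zero hN ?_⟩
      have := nrm_le_dir v i
      omega
    set F : ℤ × ℤ → ℝ := fun v => ∑ i, c v i *
      ((w (v + dir i) - w v) * (cut N v ^ 2 * w v)) with hF
    set F' : ℤ × ℤ → ℝ := fun v => ∑ i, c v i *
      ((w (v + dir i) - w v) * (cut N (v + dir i) ^ 2 * w (v + dir i))) with hF'
    have e1 : ∀ v, F v = 0 := by
      intro v
      have : F v = (∑ i, c v i * (w (v + dir i) - w v)) * (cut N v ^ 2 * w v) := by
        rw [hF, sum_mul]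
        exact sum_congr rfl fun i _ => by ring
      rw [this, hh, zero_mul]
    -- the change of variables
    have e2 : ∑ v ∈ bx N, F' v = - ∑ v ∈ bx N, F v := by
      have f1 : ∀ i : Fin 6, ∑ v ∈ bx N, c v i *
          ((w (v + dir i) - w v) * (cut N (v + dir i) ^ 2 * w (v + dir i))) =
          - ∑ v ∈ bx N, c v (i + 3) *
            ((w (v + dir (i + 3)) - w v) * (cut N v ^ 2 * w v)) := by
        intro i
        have g1 : ∑ v ∈ bx N, c v i *
          ((w (v + dir i) - w v) * (cut N (v + dir i) ^ 2 * w (v + dir i))) =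
          ∑' v, c v i * ((w (v + dir i) - w v) * (cut N (v + dir i) ^ 2 * w (v + dir i))) := by
          rw [tsum_eq_sum]
          intro v hv
          rw [(hz v hv).2 i]
          ring
        have g2 : ∑ v ∈ bx N, c v (i + 3) *
            ((w (v + dir (i + 3)) - w v) * (cut N v ^ 2 * w v)) =
            ∑' v, c v (i + 3) * ((w (v + dir (i + 3)) - w v) * (cut N v ^ 2 * w v)) := by
          rw [tsum_eq_sum]
          intro v hv
          rw [(hz v hv).1]
          ring
        rw [g1, g2, ← tsum_neg, ← (Equiv.addRight (dir i)).tsum_eq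
          (fun v => -(c v (i + 3) * ((w (v + dir (i + 3)) - w v) * (cut N v ^ 2 * w v))))]
        refine tsum_congr fun v => ?_
        simp only [Equiv.coe_addRight]
        rw [hsym, add_assoc, dir_add_three, add_zero]
        ring
      rw [hF', hF, sum_comm, sum_congr rfl fun i _ => f1 i, sum_neg_distrib, neg_inj]
      rw [sum_comm]
      refine sum_congr rfl fun v _ => ?_
      exact Equiv.sum_comp (Equiv.addRight (3 : Fin 6))
        (fun i => c v i * ((w (v + dir i) - w v) * (cut N v ^ 2 * w v)))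
    have e3 : ∑ v ∈ bx N, ∑ i, c v i * (cut N (v + dir i) * w (v + dir i) - cut N v * w v) ^ 2 =
        ∑ v ∈ bx N, ∑ i, c v i * (w v * w (v + dir i) * (cut N (v + dir i) - cut N v) ^ 2) := by
      have f1 : ∑ v ∈ bx N, (F' v - F v) = 0 := by
        rw [sum_sub_distrib, e2, sum_congr rfl fun v _ => e1 v]
        simp
      rw [← sub_eq_zero, ← f1, ← sum_sub_distrib]
      refine sum_congr rfl fun v _ => ?_
      rw [hF', hF]
      simp only
      rw [← sum_sub_distrib, ← sum_sub_distrib]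
      exact sum_congr rfl fun i _ => by ring
    have hv₀' : v₀ ∈ bx N := mem_bx.2 (by omega)
    calc c v₀ i₀ * (cut N (v₀ + dir i₀) * w (v₀ + dir i₀) - cut N v₀ * w v₀) ^ 2
        ≤ ∑ i, c v₀ i * (cut N (v₀ + dir i) * w (v₀ + dir i) - cut N v₀ * w v₀) ^ 2 :=
          single_le_sum (f := fun i => c v₀ i * (cut N (v₀ + dir i) * w (v₀ + dir i) -
            cut N v₀ * w v₀) ^ 2) (fun i _ => mul_nonneg (hc v₀ i).le (sq_nonneg _)) (mem_univ i₀)
      _ ≤ ∑ v ∈ bx N, ∑ i, c v i * (cut N (v + dir i) * w (v + dir i) - cut N v * w v) ^ 2 :=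
          single_le_sum (f := fun v => ∑ i, c v i * (cut N (v + dir i) * w (v + dir i) -
            cut N v * w v) ^ 2) (fun v _ => sum_nonneg fun i _ =>
              mul_nonneg (hc v i).le (sq_nonneg _)) hv₀'
      _ = _ := e3
      _ ≤ ∑ v ∈ bx N, ∑ i : Fin 6, K * M ^ 2 * (cut N (v + dir i) - cut N v) ^ 2 := by
          refine sum_le_sum fun v _ => sum_le_sum fun i _ => ?_
          have g1 : w v * w (v + dir i) ≤ M ^ 2 := by
            refine (le_abs_self _).trans ?_
            rw [abs_mul, sq]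
            exact mul_le_mul (hM _) (hM _) (abs_nonneg _) hM0
          have g2 : w v * w (v + dir i) * (cut N (v + dir i) - cut N v) ^ 2 ≤
              M ^ 2 * (cut N (v + dir i) - cut N v) ^ 2 :=
            mul_le_mul_of_nonneg_right g1 (sq_nonneg _)
          calc _ ≤ c v i * (M ^ 2 * (cut N (v + dir i) - cut N v) ^ 2) :=
                mul_le_mul_of_nonneg_left g2 (hc v i).le
            _ ≤ K * (M ^ 2 * (cut N (v + dir i) - cut N v) ^ 2) :=
                mul_le_mul_of_nonneg_right (hK v i) (by positivity)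
            _ = _ := by ring
      _ = K * M ^ 2 * energy N := by
          rw [energy, mul_sum]
          exact sum_congr rfl fun v _ => by rw [mul_sum]
  have l1 : Tendsto (fun N => c v₀ i₀ *
      (cut N (v₀ + dir i₀) * w (v₀ + dir i₀) - cut N v₀ * w v₀) ^ 2) atTop
      (𝓝 (c v₀ i₀ * (1 * w (v₀ + dir i₀) - 1 * w v₀) ^ 2)) :=
    ((((cut_tendsto _).mul_const _).sub ((cut_tendsto _).mul_const _)).pow 2).const_mul _
  have l2 : Tendsto (fun N => K * M ^ 2 * energy N) atTop (𝓝 (K * M ^ 2 * 0)) :=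
    energy_tendsto.const_mul _
  have l3 := le_of_tendsto_of_tendsto l1 l2 (by
    filter_upwards [eventually_ge_atTop 1, eventually_ge_atTop (nrm v₀)] with N h1 h2
    exact key N h1 h2)
  rw [mul_zero, one_mul, one_mul] at l3
  have l4 : (w (v₀ + dir i₀) - w v₀) ^ 2 ≤ 0 := by
    by_contra hcon
    push Not at hcon
    have := mul_pos (hc v₀ i₀) hcon
    linarith
  have l5 : w (v₀ + dir i₀) - w v₀ = 0 := by
    have := le_antisymm l4 (sq_nonneg _)
    exact pow_eq_zero_iff (two_ne_zero) |>.1 this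
  linarith

end Pool.Agent.Q139.Doyle
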