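import Pool.Agent.Q139.Doyle.Flower
import Pool.Agent.Q139.Doyle.Liouville

/-!
# Locally univalent packings for the hexagonal complex are Doyle spirals
-/

set_option autoImplicit false

namespace Pool.Agent.Q139.Doyle

/-- two packing labels with bounded logarithmic ratio have constant ratio -/
theorem const_ratio {u w : ℤ × ℤ → ℝ} {M : ℝ}
    (h1 : ∀ v, angleSum (fun v => Real.exp (u v)) v = 2 * Real.pi)
    (h2 : ∀ v, angleSum (fun v => Real.exp (u v + w v)) v = 2 * Real.pi)
    (hM : ∀ v, |w v| ≤ M) (v : ℤ × ℤ) (i : Fin 6) : w (v + dir i) = w v := by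
  set G : ℤ × ℤ → ℤ × ℤ → ℤ × ℤ → ℝ := fun x y z => cnd (u x) (u y) (u z) (w x) (w y) (w z)
    with hG
  have hGc : ∀ x y z, G x y z = G y x z := fun x y z => cnd_comm _ _ _ _ _ _
  refine liouville (c := fun v i => G v (v + dir i) (v + dir (i + 1)) +
    G v (v + dir i) (v + dir (i - 1))) (K := 2) (M := M) ?_ ?_ ?_ hM ?_ v i
  · intro v i
    exact add_pos (cnd_pos _ _ _ _ _ _) (cnd_pos _ _ _ _ _ _)
  · intro v i
    have a := cnd_le (u v) (u (v + dir i)) (u (v + dir (i + 1))) (w v) (w (v + dir i))
      (w (v + dir (i + 1)))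
    have b := cnd_le (u v) (u (v + dir i)) (u (v + dir (i - 1))) (w v) (w (v + dir i))
      (w (v + dir (i - 1)))
    simp only [hG]
    linarith
  · intro v i
    have e1 : v + dir i + dir (i + 3) = v := by rw [add_assoc, dir_add_three, add_zero]
    have q1 : ∀ i : Fin 6, i + 3 + 1 = i + 4 := by decide
    have q2 : ∀ i : Fin 6, i + 3 - 1 = i + 2 := by decide
    have e2 : v + dir i + dir (i + 3 + 1) = v + dir (i - 1) := by
      rw [add_assoc, q1, dir_add_four]
    have e3 : v + dir i + dir (i + 3 - 1) = v + dir (i + 1) := by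
      rw [add_assoc, q2, dir_add]
    rw [e1, e2, e3, hGc (v + dir i) v, hGc (v + dir i) v, add_comm]
  · intro v
    have e := (h2 v).trans (h1 v).symm
    rw [angleSum, angleSum, ← sub_eq_zero, ← Finset.sum_sub_distrib] at e
    have e1 : ∀ i : Fin 6, ang (Real.exp (u v + w v)) (Real.exp (u (v + dir i) + w (v + dir i)))
        (Real.exp (u (v + dir (i + 1)) + w (v + dir (i + 1)))) -
        ang (Real.exp (u v)) (Real.exp (u (v + dir i))) (Real.exp (u (v + dir (i + 1)))) =
        G v (v + dir i) (v + dir (i + 1)) * (w (v + dir i) - w v) +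
          G v (v + dir (i + 1)) (v + dir i) * (w (v + dir (i + 1)) - w v) :=
      fun i => ang_sub _ _ _ _ _ _
    rw [Finset.sum_congr rfl fun i _ => e1 i, Finset.sum_add_distrib] at e
    have e2 : ∑ i : Fin 6, G v (v + dir (i + 1)) (v + dir i) * (w (v + dir (i + 1)) - w v) =
        ∑ i : Fin 6, G v (v + dir i) (v + dir (i - 1)) * (w (v + dir i) - w v) := by
      rw [← Equiv.sum_comp (Equiv.addRight (1 : Fin 6))
        (fun i => G v (v + dir i) (v + dir (i - 1)) * (w (v + dir i) - w v))]
      refine Finset.sum_congr rfl fun i _ => ?_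
      simp only [Equiv.coe_addRight]
      rw [add_sub_cancel_right]
    rw [e2, ← Finset.sum_add_distrib] at e
    rw [← e]
    exact Finset.sum_congr rfl fun i _ => by ring

theorem additive {f : ℤ → ℝ} {a : ℝ} (h : ∀ n, f (n + 1) = f n + a) (n : ℤ) :
    f n = f 0 + n * a := by
  induction n using Int.induction_on with
  | zero => simp
  | succ n ih => rw [h, ih]; push_cast; ring
  | pred n ih =>
    have := h (-(n : ℤ) - 1)
    rw [sub_add_cancel, ih] at this
    push_cast at this ⊢
    linarith

theorem final {R : ℤ × ℤ → ℝ} {Z : ℤ × ℤ → ℂ} (h : IsPacking R Z) (hu : LocallyUnivalent R Z) :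
    ∃ a b c : ℝ, 0 < a ∧ 0 < b ∧ 0 < c ∧ ∀ n m : ℤ, R (n, m) = c * a ^ n * b ^ m := by
  have hR := h.label.1
  set u : ℤ × ℤ → ℝ := fun v => Real.log (R v) with hud
  have hexp : ∀ v, Real.exp (u v) = R v := fun v => Real.exp_log (hR v)
  -- the increments in the direction `dir j` are constant
  have hconst : ∀ j : Fin 6, ∀ (v : ℤ × ℤ) (i : Fin 6),
      u (v + dir i + dir j) - u (v + dir i) = u (v + dir j) - u v := by
    intro j v i
    refine const_ratio (u := u) (w := fun v => u (v + dir j) - u v)
      (M := |Real.log (lb 5 ^ 2)|) ?_ ?_ ?_ v i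
    · intro v
      simp only [hexp]
      exact h.label.2 v
    · intro v
      have e : (fun v => Real.exp (u v + (u (v + dir j) - u v))) = fun v => R (v + dir j) := by
        funext v
        rw [add_sub_cancel, hexp]
      rw [e, angleSum]
      have e2 := h.label.2 (v + dir j)
      rw [angleSum] at e2
      rw [← e2]
      refine Finset.sum_congr rfl fun i _ => ?_
      rw [add_right_comm v (dir i), add_right_comm v (dir (i + 1))]
    · intro v
      have hl := (lb_pos 5).1
      have f1 : Real.log (lb 5 ^ 2) + u v ≤ u (v + dir j) := by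
        rw [hud]
        simp only
        rw [← Real.log_mul (by positivity) (hR v).ne']
        exact Real.log_le_log (mul_pos (by positivity) (hR v)) (ratio h hu v j)
      have f2 : Real.log (lb 5 ^ 2) + u (v + dir j) ≤ u v := by
        have := ratio h hu (v + dir j) (j + 3)
        rw [add_assoc, dir_add_three, add_zero] at this
        rw [hud]
        simp only
        rw [← Real.log_mul (by positivity) (hR _).ne']
        exact Real.log_le_log (mul_pos (by positivity) (hR _)) this
      rw [abs_le]
      have f3 := neg_abs_le (Real.log (lb 5 ^ 2))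
      constructor <;> linarith
  have d0 : dir 0 = (1, 0) := rfl
  have d1 : dir 1 = (0, 1) := rfl
  -- the increments in the two basic directions
  set α : ℝ := u (0 + dir 0) - u 0 with hα
  set β : ℝ := u (0 + dir 1) - u 0 with hβ
  have hw : ∀ j : Fin 6, ∀ n m : ℤ, u ((n, m) + dir j) - u (n, m) = u (0 + dir j) - u 0 := by
    intro j n m
    set f : ℤ × ℤ → ℝ := fun v => u (v + dir j) - u v with hf
    have g1 : ∀ v : ℤ × ℤ, f (v + (1, 0)) = f v := fun v => hconst j v 0
    have g2 : ∀ v : ℤ × ℤ, f (v + (0, 1)) = f v := fun v => hconst j v 1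
    have g3 : ∀ n m : ℤ, f (n, m) = f (0, m) := by
      intro n m
      have := additive (f := fun n => f (n, m)) (a := 0) (fun n => by
        have := g1 (n, m)
        simpa using this) n
      simpa using this
    have g4 : ∀ m : ℤ, f (0, m) = f (0, 0) := by
      intro m
      have := additive (f := fun m => f (0, m)) (a := 0) (fun m => by
        have := g2 (0, m)
        simpa using this) m
      simpa using this
    exact (g3 n m).trans (g4 m)
  have hu1 : ∀ n m : ℤ, u (n, m) = u (0, m) + n * α := by
    intro n m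
    refine additive (f := fun n => u (n, m)) (fun n => ?_) n
    have := hw 0 n m
    rw [← hα, d0, Prod.mk_add_mk, add_zero] at this
    linarith
  have hu2 : ∀ m : ℤ, u (0, m) = u (0, 0) + m * β := by
    intro m
    refine additive (f := fun m => u (0, m)) (fun m => ?_) m
    have := hw 1 0 m
    rw [← hβ, d1, Prod.mk_add_mk, add_zero] at this
    linarith
  refine ⟨Real.exp α, Real.exp β, R (0, 0), Real.exp_pos _, Real.exp_pos _, hR _, ?_⟩
  intro n m
  rw [← hexp, hu1, hu2, Real.exp_add, Real.exp_add, hexp, ← Real.rpow_intCast, ← Real.rpow_intCast,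
    ← Real.exp_mul, ← Real.exp_mul, mul_comm α, mul_comm β]
  ring

end Pool.Agent.Q139.Doyle
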