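import Pool.Agent.Q139.Doyle.Ring
import Pool.Agent.Q139.Doyle.Deriv

/-!
# The ring lemma for locally univalent packings
-/

set_option autoImplicit false

namespace Pool.Agent.Q139.Doyle

open Complex Metric

theorem cos_ang {x y z : ℝ} (hx : 0 < x) (hy : 0 < y) (hz : 0 < z) :
    Real.cos (ang x y z) = 1 - 2 * (y * z / ((x + y) * (x + z))) := by
  rw [ang, cosarg_eq hx hy hz, Real.cos_arccos]
  · linarith [frac_lt hx hy hz]
  · linarith [frac_pos hx hy hz]

theorem ang_nonneg (x y z : ℝ) : 0 ≤ ang x y z := Real.arccos_nonneg _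

theorem ang_le_pi (x y z : ℝ) : ang x y z ≤ Real.pi := Real.arccos_le_pi _

theorem sin_half_sq {x y z : ℝ} (hx : 0 < x) (hy : 0 < y) (hz : 0 < z) :
    Real.sin (ang x y z / 2) ^ 2 = y / (x + y) * (z / (x + z)) := by
  have h1 := cos_ang hx hy hz
  have h2 : Real.cos (ang x y z) = 1 - 2 * Real.sin (ang x y z / 2) ^ 2 := by
    have h3 := Real.cos_two_mul (ang x y z / 2)
    rw [Real.cos_sq', mul_div_cancel₀ _ (two_ne_zero)] at h3
    rw [h3]
    ring
  rw [h2] at h1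
  rw [div_mul_div_comm]
  linarith

/-- geometry of two consecutive petals -/
theorem rot {a b : ℂ} {r p q : ℝ} (hr : 0 < r) (hp : 0 < p) (hq : 0 < q)
    (ha : ‖a‖ = r + p) (hb : ‖b‖ = r + q) (hab : ‖b - a‖ = p + q)
    (him : 0 < (b * (starRingEnd ℂ) a).im) :
    b / ((r + q : ℝ) : ℂ) = a / ((r + p : ℝ) : ℂ) * Complex.exp (((ang r p q : ℝ) : ℂ) * I) := by
  have h1 : (b * (starRingEnd ℂ) a).re = (r + p) * (r + q) * Real.cos (ang r p q) := by
    have e1 : ‖b - a‖ ^ 2 = ‖b‖ ^ 2 + ‖a‖ ^ 2 - 2 * (b * (starRingEnd ℂ) a).re := by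
      rw [← normSq_eq_norm_sq, ← normSq_eq_norm_sq, ← normSq_eq_norm_sq, normSq_sub]
    rw [hab, hb, ha] at e1
    rw [cos_ang hr hp hq]
    have h3 : r + p ≠ 0 := by positivity
    have h4 : r + q ≠ 0 := by positivity
    field_simp
    nlinarith
  have h2 : (b * (starRingEnd ℂ) a).im = (r + p) * (r + q) * Real.sin (ang r p q) := by
    have e1 : (b * (starRingEnd ℂ) a).re ^ 2 + (b * (starRingEnd ℂ) a).im ^ 2 =
        ((r + p) * (r + q)) ^ 2 := by
      have : ‖b * (starRingEnd ℂ) a‖ ^ 2 = ((r + p) * (r + q)) ^ 2 := by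
        rw [norm_mul, RCLike.norm_conj, ha, hb]
        ring
      rw [← this, ← normSq_eq_norm_sq, normSq_apply]
      ring
    rw [h1] at e1
    have e2 : 0 ≤ Real.sin (ang r p q) :=
      Real.sin_nonneg_of_nonneg_of_le_pi (ang_nonneg _ _ _) (ang_le_pi _ _ _)
    have e3 : (b * (starRingEnd ℂ) a).im ^ 2 =
        ((r + p) * (r + q) * Real.sin (ang r p q)) ^ 2 := by
      have := Real.sin_sq_add_cos_sq (ang r p q)
      linear_combination e1 - ((r + p) * (r + q)) ^ 2 * this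
    have e4 : 0 ≤ (r + p) * (r + q) * Real.sin (ang r p q) := by positivity
    exact (pow_left_inj₀ him.le e4 two_ne_zero).1 e3
  have h3 : b * (starRingEnd ℂ) a =
      (((r + p) * (r + q) : ℝ) : ℂ) * Complex.exp (((ang r p q : ℝ) : ℂ) * I) := by
    apply Complex.ext
    · rw [h1, Complex.re_ofReal_mul, Complex.exp_ofReal_mul_I_re]
    · rw [h2, Complex.im_ofReal_mul, Complex.exp_ofReal_mul_I_im]
  have h4 : (starRingEnd ℂ) a * a = (((r + p) ^ 2 : ℝ) : ℂ) := by
    rw [mul_comm, Complex.mul_conj, normSq_eq_norm_sq, ha]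
  have h5 : ((r + p : ℝ) : ℂ) ≠ 0 := by
    rw [Ne, Complex.ofReal_eq_zero]
    positivity
  have h6 : ((r + q : ℝ) : ℂ) ≠ 0 := by
    rw [Ne, Complex.ofReal_eq_zero]
    positivity
  have h7 : b * (((r + p) ^ 2 : ℝ) : ℂ) =
      (((r + p) * (r + q) : ℝ) : ℂ) * Complex.exp (((ang r p q : ℝ) : ℂ) * I) * a := by
    rw [← h4, ← mul_assoc, h3]
  push_cast at h7 h5 h6 ⊢
  field_simp
  refine mul_left_cancel₀ h5 ?_
  linear_combination h7

/-- geometry of two disjoint petals -/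
theorem far {a b : ℂ} {r p q S : ℝ} (hr : 0 < r) (hp : 0 < p) (hq : 0 < q)
    (ha : ‖a‖ = r + p) (hab : p + q ≤ ‖b - a‖)
    (h : b / ((r + q : ℝ) : ℂ) = a / ((r + p : ℝ) : ℂ) * Complex.exp (((2 * S : ℝ) : ℂ) * I)) :
    Real.sqrt (p / (r + p)) * Real.sqrt (q / (r + q)) ≤ |Real.sin S| := by
  have h5 : ((r + p : ℝ) : ℂ) ≠ 0 := by
    rw [Ne, Complex.ofReal_eq_zero]
    positivity
  have h6 : ((r + q : ℝ) : ℂ) ≠ 0 := by
    rw [Ne, Complex.ofReal_eq_zero]
    positivity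
  have e1 : b - a = a / ((r + p : ℝ) : ℂ) *
      (((r + q : ℝ) : ℂ) * Complex.exp (((2 * S : ℝ) : ℂ) * I) - ((r + p : ℝ) : ℂ)) := by
    rw [div_eq_iff h6] at h
    rw [h]
    field_simp
  have e2 : ‖a / ((r + p : ℝ) : ℂ)‖ = 1 := by
    rw [norm_div, ha, Complex.norm_real, Real.norm_of_nonneg (by positivity),
      div_self (by positivity)]
  have e3 : ‖b - a‖ ^ 2 = (p - q) ^ 2 + 4 * ((r + p) * (r + q)) * Real.sin S ^ 2 := by
    rw [e1, norm_mul, e2, one_mul, ← normSq_eq_norm_sq, Complex.exp_mul_I, ← Complex.ofReal_cos,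
      ← Complex.ofReal_sin, normSq_apply]
    simp only [sub_re, mul_re, ofReal_re, add_re, I_re, mul_zero, ofReal_im, I_im, mul_one,
      sub_self, add_zero, zero_mul, sub_zero, sub_im, mul_im, add_im, zero_add]
    rw [Real.cos_two_mul, Real.sin_two_mul, Real.cos_sq']
    have := Real.sin_sq_add_cos_sq S
    have h8 : (2 * Real.sin S * Real.cos S) ^ 2 = 4 * Real.sin S ^ 2 * (1 - Real.sin S ^ 2) := by
      linear_combination 4 * Real.sin S ^ 2 * this
    linear_combination (r + q) ^ 2 * h8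
  have e4 : (p + q) ^ 2 ≤ ‖b - a‖ ^ 2 := pow_le_pow_left₀ (by positivity) hab 2
  rw [← Real.sqrt_mul (by positivity), ← Real.sqrt_sq_eq_abs]
  apply Real.sqrt_le_sqrt
  rw [div_mul_div_comm, div_le_iff₀ (by positivity)]
  nlinarith

/-- **Ring lemma.** Adjacent radii of a locally univalent packing have bounded ratio. -/
theorem ratio {R : ℤ × ℤ → ℝ} {Z : ℤ × ℤ → ℂ} (h : IsPacking R Z) (hu : LocallyUnivalent R Z)
    (v : ℤ × ℤ) (i : Fin 6) : lb 5 ^ 2 * R v ≤ R (v + dir i) := by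
  have hR := h.label.1
  set r := R v with hr
  have r0 : 0 < r := hR v
  have p0 : ∀ i, 0 < R (v + dir i) := fun i => hR _
  set s : Fin 6 → ℝ := fun i => Real.sqrt (R (v + dir i) / (r + R (v + dir i))) with hs
  set x : Fin 6 → ℝ := fun i => ang r (R (v + dir i)) (R (v + dir (i + 1))) / 2 with hx
  have hs1 : ∀ i, s i ≤ 1 := by
    intro i
    rw [hs]
    refine Real.sqrt_le_one.2 ?_
    rw [div_le_one (add_pos r0 (p0 i))]
    linarith
  set P : Fin 6 → ℂ := fun i => (Z (v + dir i) - Z v) / ((r + R (v + dir i) : ℝ) : ℂ) with hP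
  have hn : ∀ i, ‖Z (v + dir i) - Z v‖ = r + R (v + dir i) := by
    intro i
    rw [← h.tangent v i, dist_comm, dist_eq_norm]
  have hadj : ∀ i, ‖(Z (v + dir (i + 1)) - Z v) - (Z (v + dir i) - Z v)‖ =
      R (v + dir i) + R (v + dir (i + 1)) := by
    intro i
    have h1 := h.tangent (v + dir i) (i + 2)
    rw [add_assoc, dir_add] at h1
    rw [← h1, dist_comm, dist_eq_norm]
    congr 1
    ring
  have hrot : ∀ i, P (i + 1) = P i * Complex.exp (((2 * x i : ℝ) : ℂ) * I) := by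
    intro i
    have h1 := rot r0 (p0 i) (p0 (i + 1)) (hn i) (hn (i + 1)) (hadj i) (h.oriented v i)
    rw [hP, hx]
    simp only
    rw [h1, mul_div_cancel₀ _ (two_ne_zero)]
  have hdisj : ∀ i j, i ≠ j → R (v + dir i) + R (v + dir j) ≤
      ‖(Z (v + dir j) - Z v) - (Z (v + dir i) - Z v)‖ := by
    intro i j hij
    have h1 := hu v (dir i) (Set.mem_insert_of_mem _ ⟨i, rfl⟩) (dir j)
      (Set.mem_insert_of_mem _ ⟨j, rfl⟩) (dir_ne hij)
    rw [disjoint_ball_ball_iff (p0 i) (p0 j)] at h1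
    rw [dist_comm, dist_eq_norm] at h1
    refine h1.trans (le_of_eq ?_)
    congr 1
    ring
  have hfar : ∀ (i j : Fin 6) (S : ℝ), i ≠ j →
      P j = P i * Complex.exp (((2 * S : ℝ) : ℂ) * I) → s i * s j ≤ |Real.sin S| := by
    intro i j S hij hPj
    exact far r0 (p0 i) (p0 j) (hn i) (hdisj i j hij) hPj
  have hcomp : ∀ (i j k : Fin 6) (S T : ℝ), P j = P i * Complex.exp (((2 * S : ℝ) : ℂ) * I) →
      P k = P j * Complex.exp (((2 * T : ℝ) : ℂ) * I) →
      P k = P i * Complex.exp (((2 * (S + T) : ℝ) : ℂ) * I) := by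
    intro i j k S T h1 h2
    rw [h2, h1, mul_assoc, ← Complex.exp_add]
    congr 2
    push_cast
    ring
  have a2 : ∀ i : Fin 6, i + 1 + 1 = i + 2 := by decide
  have a3 : ∀ i : Fin 6, i + 2 + 1 = i + 3 := by decide
  have a4 : ∀ i : Fin 6, i + 3 + 1 = i + 4 := by decide
  have a5 : ∀ i : Fin 6, i + 4 + 1 = i + 5 := by decide
  have r2 : ∀ i, P (i + 2) = P i * Complex.exp (((2 * (x i + x (i + 1)) : ℝ) : ℂ) * I) := by
    intro i
    refine hcomp i (i + 1) (i + 2) _ _ (hrot i) ?_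
    rw [← a2]; exact hrot _
  have r3 : ∀ i, P (i + 3) =
      P i * Complex.exp (((2 * (x i + x (i + 1) + x (i + 2)) : ℝ) : ℂ) * I) := by
    intro i
    refine hcomp i (i + 2) (i + 3) _ _ (r2 i) ?_
    rw [← a3]; exact hrot _
  have r4 : ∀ i, P (i + 4) =
      P i * Complex.exp (((2 * (x i + x (i + 1) + x (i + 2) + x (i + 3)) : ℝ) : ℂ) * I) := by
    intro i
    refine hcomp i (i + 3) (i + 4) _ _ (r3 i) ?_
    rw [← a4]; exact hrot _
  have r5 : ∀ i, P (i + 5) = P i * Complex.exp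
      (((2 * (x i + x (i + 1) + x (i + 2) + x (i + 3) + x (i + 4)) : ℝ) : ℂ) * I) := by
    intro i
    refine hcomp i (i + 4) (i + 5) _ _ (r4 i) ?_
    rw [← a5]; exact hrot _
  have n2 : ∀ i : Fin 6, i ≠ i + 2 := by decide
  have n3 : ∀ i : Fin 6, i ≠ i + 3 := by decide
  have n4 : ∀ i : Fin 6, i ≠ i + 4 := by decide
  have n5 : ∀ i : Fin 6, i ≠ i + 5 := by decide
  have hsin : ∀ i, |Real.sin (x i)| = s i * s (i + 1) := by
    intro i
    rw [← Real.sqrt_sq_eq_abs, hx]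
    simp only
    rw [sin_half_sq r0 (p0 i) (p0 (i + 1)),
      Real.sqrt_mul (div_nonneg (p0 i).le (add_pos r0 (p0 i)).le)]
  have hbig : ∃ j, 1 / 2 ≤ s j * s (j + 1) := by
    have hsum : ∑ i, x i = Real.pi := by
      have h1 := h.label.2 v
      rw [angleSum] at h1
      rw [hx, ← Finset.sum_div, h1]
      ring
    have : ∃ j ∈ (Finset.univ : Finset (Fin 6)), Real.pi / 6 ≤ x j := by
      apply Finset.exists_le_of_sum_le Finset.univ_nonempty
      rw [hsum, Finset.sum_const, Finset.card_univ, Fintype.card_fin, nsmul_eq_mul]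
      push_cast
      linarith
    obtain ⟨j, -, hj⟩ := this
    refine ⟨j, ?_⟩
    rw [← hsin]
    have hxj : x j ≤ Real.pi / 2 := by
      rw [hx]
      simp only
      linarith [ang_le_pi r (R (v + dir j)) (R (v + dir (j + 1)))]
    have h2 : Real.sin (Real.pi / 6) ≤ Real.sin (x j) :=
      Real.sin_le_sin_of_le_of_le_pi_div_two (by linarith [Real.pi_pos]) hxj hj
    rw [Real.sin_pi_div_six] at h2
    exact h2.trans (le_abs_self _)
  have key := ring_lemma (s := s) (x := x) (fun i => Real.sqrt_nonneg _) hs1 hsin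
    (fun i => hfar _ _ _ (n2 i) (r2 i)) (fun i => hfar _ _ _ (n3 i) (r3 i))
    (fun i => hfar _ _ _ (n4 i) (r4 i)) (fun i => hfar _ _ _ (n5 i) (r5 i)) hbig i
  have h1 : lb 5 ^ 2 ≤ s i ^ 2 := pow_le_pow_left₀ (lb_pos 5).1.le key 2
  rw [hs] at h1
  simp only at h1
  rw [Real.sq_sqrt (by have := p0 i; positivity), le_div_iff₀ (by have := p0 i; positivity)] at h1
  have h2 : 0 ≤ lb 5 ^ 2 * R (v + dir i) := by have := p0 i; positivity
  linarith

end Pool.Agent.Q139.Doyle
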