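import Pool.Agent.Q139.Doyle.Defs

/-!
# The ring lemma for univalent hexagonal flowers
-/

set_option autoImplicit false

namespace Pool.Agent.Q139.Doyle

open Complex Metric

theorem abs_sin_add_le (x y : ℝ) : |Real.sin (x + y)| ≤ |Real.sin x| + |Real.sin y| := by
  rw [Real.sin_add]
  refine (abs_add_le _ _).trans (add_le_add ?_ ?_)
  · rw [abs_mul]
    exact mul_le_of_le_one_right (abs_nonneg _) (Real.abs_cos_le_one y)
  · rw [abs_mul]
    exact mul_le_of_le_one_left (abs_nonneg _) (Real.abs_cos_le_one x)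

theorem small_bounds {δ e s2 s3 s4 s5 : ℝ} (hδ : 0 < δ) (hδ1 : δ ≤ 1) (he : e < δ ^ 4 / 32)
    (c2 : δ * s2 ≤ 2 * e) (c3 : δ * s3 ≤ 2 * e + s2) (c4 : δ * s4 ≤ 2 * e + s2 + s3)
    (c5 : δ * s5 ≤ 2 * e + s2 + s3 + s4) :
    e < 1 / 2 ∧ s2 < 1 / 2 ∧ s3 < 1 / 2 ∧ s4 < 1 / 2 ∧ s5 < 1 / 2 := by
  have p2 : δ ^ 2 ≤ δ := by
    have := pow_le_pow_of_le_one hδ.le hδ1 (show 1 ≤ 2 by norm_num)
    rwa [pow_one] at this
  have p3 : δ ^ 3 ≤ δ ^ 2 := pow_le_pow_of_le_one hδ.le hδ1 (by norm_num)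
  have p4 : δ ^ 4 ≤ δ ^ 3 := pow_le_pow_of_le_one hδ.le hδ1 (by norm_num)
  have f2 : s2 < δ ^ 3 / 16 := by
    refine lt_of_mul_lt_mul_left (?_ : δ * s2 < δ * (δ ^ 3 / 16)) hδ.le
    have : δ * (δ ^ 3 / 16) = δ ^ 4 / 16 := by ring
    linarith
  have f3 : s3 < δ ^ 2 / 8 := by
    refine lt_of_mul_lt_mul_left (?_ : δ * s3 < δ * (δ ^ 2 / 8)) hδ.le
    have : δ * (δ ^ 2 / 8) = δ ^ 3 / 8 := by ring
    linarith
  have f4 : s4 < δ / 4 := by
    refine lt_of_mul_lt_mul_left (?_ : δ * s4 < δ * (δ / 4)) hδ.le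
    have : δ * (δ / 4) = δ ^ 2 / 4 := by ring
    linarith
  have f5 : s5 < 1 / 2 := by
    refine lt_of_mul_lt_mul_left (?_ : δ * s5 < δ * (1 / 2)) hδ.le
    linarith
  exact ⟨by linarith, by linarith, by linarith, by linarith, f5⟩

/-- One step of the combinatorial ring lemma. -/
theorem step {s : Fin 6 → ℝ} {x : Fin 6 → ℝ} (h0 : ∀ i, 0 ≤ s i) (h1 : ∀ i, s i ≤ 1)
    (hx : ∀ i, |Real.sin (x i)| = s i * s (i + 1))
    (h2 : ∀ i, s i * s (i + 2) ≤ |Real.sin (x i + x (i + 1))|)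
    (h3 : ∀ i, s i * s (i + 3) ≤ |Real.sin (x i + x (i + 1) + x (i + 2))|)
    (h4 : ∀ i, s i * s (i + 4) ≤ |Real.sin (x i + x (i + 1) + x (i + 2) + x (i + 3))|)
    (h5 : ∀ i, s i * s (i + 5) ≤
      |Real.sin (x i + x (i + 1) + x (i + 2) + x (i + 3) + x (i + 4))|)
    (hbig : ∃ j, 1 / 2 ≤ s j * s (j + 1)) {δ : ℝ} (hδ : 0 < δ) (hδ1 : δ ≤ 1) (i : Fin 6)
    (hi : δ ≤ s i) : δ ^ 4 / 32 ≤ s (i + 1) := by
  by_contra hcon
  push Not at hcon
  set e := s (i + 1) with he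
  have e0 : 0 ≤ e := h0 _
  have a1 : |Real.sin (x i)| ≤ e := by
    rw [hx]
    exact mul_le_of_le_one_left (h0 _) (h1 _)
  have ak : ∀ k, |Real.sin (x k)| ≤ s k := by
    intro k
    rw [hx]
    exact mul_le_of_le_one_right (h0 _) (h1 _)
  have t2 := (h2 i).trans (abs_sin_add_le _ _)
  have t3 := (h3 i).trans ((abs_sin_add_le _ _).trans
    (add_le_add_left (abs_sin_add_le _ _) _))
  have t4 := (h4 i).trans ((abs_sin_add_le _ _).trans
    (add_le_add_left ((abs_sin_add_le _ _).trans (add_le_add_left (abs_sin_add_le _ _) _)) _))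
  have t5 := (h5 i).trans ((abs_sin_add_le _ _).trans
    (add_le_add_left ((abs_sin_add_le _ _).trans (add_le_add_left
      ((abs_sin_add_le _ _).trans (add_le_add_left (abs_sin_add_le _ _) _)) _)) _))
  have b1 := ak (i + 1)
  have b2 := ak (i + 2)
  have b3 := ak (i + 3)
  have b4 := ak (i + 4)
  rw [← he] at b1
  have c2 : δ * s (i + 2) ≤ 2 * e := by
    have := mul_le_mul_of_nonneg_right hi (h0 (i + 2))
    linarith
  have c3 : δ * s (i + 3) ≤ 2 * e + s (i + 2) := by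
    have := mul_le_mul_of_nonneg_right hi (h0 (i + 3))
    linarith
  have c4 : δ * s (i + 4) ≤ 2 * e + s (i + 2) + s (i + 3) := by
    have := mul_le_mul_of_nonneg_right hi (h0 (i + 4))
    linarith
  have c5 : δ * s (i + 5) ≤ 2 * e + s (i + 2) + s (i + 3) + s (i + 4) := by
    have := mul_le_mul_of_nonneg_right hi (h0 (i + 5))
    linarith
  obtain ⟨f1, f2, f3, f4, f5⟩ := small_bounds hδ hδ1 hcon c2 c3 c4 c5
  obtain ⟨j, hj⟩ := hbig
  have hj1 : 1 / 2 ≤ s j := hj.trans (mul_le_of_le_one_right (h0 _) (h1 _))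
  have hj2 : 1 / 2 ≤ s (j + 1) := hj.trans (mul_le_of_le_one_left (h0 _) (h1 _))
  have hcases : ∀ i j : Fin 6, j = i + 1 ∨ j = i + 2 ∨ j = i + 3 ∨ j = i + 4 ∨ j = i + 5 ∨
      j + 1 = i + 1 := by decide
  rcases hcases i j with h | h | h | h | h | h
  · rw [h] at hj1; linarith
  · rw [h] at hj1; linarith
  · rw [h] at hj1; linarith
  · rw [h] at hj1; linarith
  · rw [h] at hj1; linarith
  · rw [h] at hj2; linarith

/-- the recursion for the lower bound -/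
noncomputable def lb : ℕ → ℝ
  | 0 => 1 / 2
  | n + 1 => lb n ^ 4 / 32

theorem lb_pos (n : ℕ) : 0 < lb n ∧ lb n ≤ 1 := by
  induction n with
  | zero => norm_num [lb]
  | succ n ih =>
    obtain ⟨h1, h2⟩ := ih
    refine ⟨by rw [lb]; positivity, ?_⟩
    rw [lb]
    have : lb n ^ 4 ≤ 1 := pow_le_one₀ h1.le h2
    linarith

theorem lb_anti : Antitone lb := by
  refine antitone_nat_of_succ_le fun n => ?_
  obtain ⟨h1, h2⟩ := lb_pos n
  rw [lb]
  have h3 : lb n ^ 4 ≤ lb n ^ 1 := pow_le_pow_of_le_one h1.le h2 (by norm_num)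
  rw [pow_one] at h3
  linarith

/-- combinatorial ring lemma -/
theorem ring_lemma {s : Fin 6 → ℝ} {x : Fin 6 → ℝ} (h0 : ∀ i, 0 ≤ s i) (h1 : ∀ i, s i ≤ 1)
    (hx : ∀ i, |Real.sin (x i)| = s i * s (i + 1))
    (h2 : ∀ i, s i * s (i + 2) ≤ |Real.sin (x i + x (i + 1))|)
    (h3 : ∀ i, s i * s (i + 3) ≤ |Real.sin (x i + x (i + 1) + x (i + 2))|)
    (h4 : ∀ i, s i * s (i + 4) ≤ |Real.sin (x i + x (i + 1) + x (i + 2) + x (i + 3))|)
    (h5 : ∀ i, s i * s (i + 5) ≤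
      |Real.sin (x i + x (i + 1) + x (i + 2) + x (i + 3) + x (i + 4))|)
    (hbig : ∃ j, 1 / 2 ≤ s j * s (j + 1)) (i : Fin 6) : lb 5 ≤ s i := by
  have hs := hbig
  obtain ⟨j, hj⟩ := hbig
  have hj1 : 1 / 2 ≤ s j := hj.trans (mul_le_of_le_one_right (h0 _) (h1 _))
  have key : ∀ (n : ℕ) (k : Fin 6), lb n ≤ s k → lb (n + 1) ≤ s (k + 1) := fun n k hk =>
    step h0 h1 hx h2 h3 h4 h5 hs (lb_pos n).1 (lb_pos n).2 k hk
  have k0 : lb 0 ≤ s j := hj1
  have k1 := key _ _ k0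
  have k2 := key _ _ k1
  have k3 := key _ _ k2
  have k4 := key _ _ k3
  have k5 := key _ _ k4
  have hcases : ∀ i j : Fin 6, i = j ∨ i = j + 1 ∨ i = j + 1 + 1 ∨ i = j + 1 + 1 + 1 ∨
      i = j + 1 + 1 + 1 + 1 ∨ i = j + 1 + 1 + 1 + 1 + 1 := by decide
  rcases hcases i j with h | h | h | h | h | h
  · rw [h]; exact (lb_anti (by norm_num)).trans k0
  · rw [h]; exact (lb_anti (by norm_num)).trans k1
  · rw [h]; exact (lb_anti (by norm_num)).trans k2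
  · rw [h]; exact (lb_anti (by norm_num)).trans k3
  · rw [h]; exact (lb_anti (by norm_num)).trans k4
  · rw [h]; exact k5

end Pool.Agent.Q139.Doyle
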